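import Pool.Agent.helper37.MW.Spec

/-!
# Project MW (MP_7e34bc_co, Q2), row WIN (helper67)
-/

set_option autoImplicit false

namespace Pool.Agent.helper37.MW

open Finset Pool.Agent.NK

private theorem WIN_card (n : ℕ) (x : Fin n → ℝ) (hx : ∀ i, x i ≠ 0) :
    Fintype.card {i // 0 < x i} + Fintype.card {i // x i < 0} = n := by
  classical
  have h1 := Fintype.card_subtype_compl (fun i : Fin n => 0 < x i)
  have h2 : Fintype.card {i : Fin n // x i < 0} = Fintype.card {i : Fin n // ¬ 0 < x i} := by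
    refine Fintype.card_congr (Equiv.subtypeEquivRight fun i => ?_)
    constructor
    · exact fun h => not_lt.2 h.le
    · exact fun h => lt_of_le_of_ne (not_lt.1 h) (hx i)
  have h3 := Fintype.card_subtype_le (fun i : Fin n => 0 < x i)
  rw [Fintype.card_fin] at h1 h3
  rw [h2]
  omega

theorem WIN (h1 : CHW_stmt) (h2 : SGL_stmt) (h3 : CST_stmt)
    (h4 : Pool.Agent.helper37.MA.PEP_stmt) : WIN_stmt := by
  intro p n k hp hn h3k h50 x hx hcard
  have hpq := WIN_card n x hx
  rw [hcard] at hpq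
  set q := Fintype.card {i // x i < 0} with hq
  refine h4 n k (2 * (n - 2).choose (k - 1)) x hx ?_
  intro C hC hCh
  rw [hcard, ← hq, ← hpq]
  have hn' : 100 * p ^ 2 + 100 ≤ p + q := by omega
  obtain ⟨c1, c2, c3, c4, c5, c6, c7, c8, c9⟩ := h3 p q k hp hn' (by omega) (by omega)
  by_cases hcase : #{c ∈ C | c.1 ≤ p} ≤ 1
  · exact h2 p q k C c2 c4 (by omega) hC hcase
  · have e1 := h1 p q k C hp c1 c3 c5 c6 c7 hC hCh (by omega)
    have e2 := e1.trans c9
    have e3 := le_of_mul_le_mul_left e2 c8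
    have e4 : ((∑ c ∈ C, p.choose c.1 * q.choose c.2 : ℕ) : ℝ) ≤
        ((2 * (p + q - 2).choose (k - 1) : ℕ) : ℝ) := by
      rw [Nat.cast_mul, Nat.cast_two]
      exact e3
    exact_mod_cast e4

end Pool.Agent.helper37.MW
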